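import Pool.Agent.NineA.Main

set_option autoImplicit false

open Finset

namespace Pool.Agent.Results.MP_9a1728_nt.Supercongruence

open Pool.Agent.NineA

/-- The rising factorial `(a)_k`. -/
noncomputable def poch (a : ℚ) (k : ℕ) : ℚ := (ascPochhammer ℚ k).eval a

/-- `A_{p,r} = ∑_{k=0}^{p^r-1} (8k+1) (1/4)_k^5 (1/2)_k / ((3/4)_k k!^5)`. -/
noncomputable def A (p r : ℕ) : ℚ :=
  ∑ k ∈ Finset.range (p ^ r),
    (8 * (k : ℚ) + 1) * (poch (1 / 4) k ^ 5 * poch (1 / 2) k)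
      / (poch (3 / 4) k * ((k.factorial : ℕ) : ℚ) ^ 5)

/-- `B_{p,r} = ∑_{k=0}^{p^r-1} (1/2)_k^3 / k!^3`. -/
noncomputable def B (p r : ℕ) : ℚ :=
  ∑ k ∈ Finset.range (p ^ r), poch (1 / 2) k ^ 3 / ((k.factorial : ℕ) : ℚ) ^ 3

/-- `x ≡ y (mod p^m)` for rational numbers: `x - y = p^m u/v` with integers `u, v`, `p ∤ v`. -/
def Congr (p m : ℕ) (x y : ℚ) : Prop :=
  ∃ u v : ℤ, ¬ (p : ℤ) ∣ v ∧ x - y = (p : ℚ) ^ m * ((u : ℚ) / (v : ℚ))

lemma poch_zero (a : ℚ) : poch a 0 = 1 := by simp [poch]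

lemma poch_succ (a : ℚ) (k : ℕ) : poch a (k + 1) = poch a k * (a + k) := by
  unfold poch; rw [ascPochhammer_succ_eval]

lemma poch_ne (a : ℚ) (ha : 0 < a) (k : ℕ) : poch a k ≠ 0 := by
  induction k with
  | zero => rw [poch_zero]; norm_num
  | succ k ih => rw [poch_succ]; exact mul_ne_zero ih (by positivity)

lemma fac_ne' (k : ℕ) : ((k.factorial : ℕ) : ℚ) ≠ 0 := by exact_mod_cast Nat.factorial_ne_zero k

lemma be_eq (k : ℕ) : be k = poch (1 / 2) k / ((k.factorial : ℕ) : ℚ) := by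
  induction k with
  | zero => simp [be_zero, poch_zero]
  | succ k ih =>
    have h1 := fac_ne' k
    have h2 : (2 * (k : ℚ) + 2) ≠ 0 := by positivity
    have h3 : ((k : ℚ) + 1) ≠ 0 := by positivity
    rw [be_succ, ih, poch_succ, Nat.factorial_succ]
    push_cast
    rw [div_mul_div_comm, div_eq_div_iff (mul_ne_zero h1 h2) (mul_ne_zero h3 h1)]
    ring

lemma prod_four (k : ℕ) :
    ∏ j ∈ range k, ((ν4 1 j - 0) / (μ4 j - 1 * 0)) = (poch (1 / 4) k / ((k.factorial : ℕ) : ℚ)) ^ 4 := by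
  induction k with
  | zero => simp [poch_zero]
  | succ k ih =>
    have h1 := fac_ne' k
    have h3 : ((k : ℚ) + 1) ≠ 0 := by positivity
    rw [prod_range_succ, ih, poch_succ, Nat.factorial_succ]
    unfold ν4 μ4
    push_cast
    rw [mul_zero, sub_zero, sub_zero, ← div_pow, ← mul_pow]
    congr 1
    have h4 : (4 * (k : ℚ) + 4) ≠ 0 := by positivity
    rw [div_mul_div_comm, div_eq_div_iff (mul_ne_zero h1 h4) (mul_ne_zero h3 h1)]
    ring

lemma cA_eq (k : ℕ) :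
    cA 1 k = poch (1 / 4) k * poch (1 / 2) k / (poch (3 / 4) k * ((k.factorial : ℕ) : ℚ)) := by
  induction k with
  | zero => simp [cA_zero, poch_zero]
  | succ k ih =>
    have h1 := fac_ne' k
    have h2 := poch_ne (3 / 4) (by norm_num) k
    have h3 : ((k : ℚ) + 1) ≠ 0 := by positivity
    have h4 : (3 / 4 + (k : ℚ)) ≠ 0 := by positivity
    have h5 : (4 * (k : ℚ) + 4) * (3 * 1 + 4 * (k : ℚ)) ≠ 0 := by positivity
    rw [cA_succ, ih, poch_succ, poch_succ, poch_succ, Nat.factorial_succ]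
    push_cast
    rw [div_mul_div_comm, div_eq_div_iff (mul_ne_zero (mul_ne_zero h2 h1) h5)
      (mul_ne_zero (mul_ne_zero h2 h4) (mul_ne_zero h3 h1))]
    ring

lemma A_eq (p r : ℕ) (hp : 0 < p) : A p r = Asum (p ^ r - 1) := by
  have e : p ^ r - 1 + 1 = p ^ r := Nat.sub_add_cancel (Nat.one_le_pow _ _ hp)
  unfold A Asum TS
  rw [e]
  apply sum_congr rfl
  intro k _
  have h1 := fac_ne' k
  have h2 := poch_ne (3 / 4) (by norm_num) k
  rw [prod_four]
  unfold aA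
  rw [cA_eq]
  field_simp
  ring

lemma B_eq (p r : ℕ) (hp : 0 < p) : B p r = Bsum (p ^ r - 1) := by
  have e : p ^ r - 1 + 1 = p ^ r := Nat.sub_add_cancel (Nat.one_le_pow _ _ hp)
  unfold B Bsum TS
  rw [e]
  apply sum_congr rfl
  intro k _
  have : ∏ j ∈ range k, ((ν2 j - 0) / (μ2 j - 0 * 0)) = (be k) ^ 2 := by
    unfold be ν2 μ2
    rw [← prod_pow]
    apply prod_congr rfl
    intro j _
    rw [mul_zero, sub_zero, sub_zero, div_pow]
  rw [this, be_eq]
  rw [← div_pow]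
  ring

/-- For every odd prime `p` and every `r ≥ 1`, `A_{p,r} ≡ p^r B_{p,r}` modulo `p^{r+3}` if
`p ≡ 1 (mod 4)` and modulo `p^{2r+1}` if `p ≡ 3 (mod 4)`. -/
theorem result (p : ℕ) (hp : p.Prime) (hodd : p ≠ 2) (r : ℕ) (hr : 1 ≤ r) :
    (p % 4 = 1 → Congr p (r + 3) (A p r) ((p : ℚ) ^ r * B p r)) ∧
    (p % 4 = 3 → Congr p (2 * r + 1) (A p r) ((p : ℚ) ^ r * B p r)) := by
  haveI : Fact p.Prime := ⟨hp⟩
  constructor
  · intro h4
    have h := main1 (p := p) h4 r hr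
    apply frac_of_CE
    rw [A_eq p r hp.pos, B_eq p r hp.pos]
    unfold Ar Br at h
    push_cast
    exact h
  · intro h4
    have h := main3 (p := p) h4 r
    apply frac_of_CE
    rw [A_eq p r hp.pos, B_eq p r hp.pos]
    unfold Ar Br at h
    push_cast
    exact h

end Pool.Agent.Results.MP_9a1728_nt.Supercongruence
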